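import Pool.Agent.N988.EC.Stm

/-!
Project EC (helper988): assembly of the probability bounds (helper478).
-/

set_option autoImplicit false

open MeasureTheory Set Filter
open scoped ENNReal Topology
open Pool.Agent.N988.EA Pool.Agent.N988.EZ Pool.Agent.N988.EC

namespace Pool.Agent.N478.EC

noncomputable section

theorem fin_all {ι : Type} [Finite ι] (P : ι → ℝ → Prop)
    (h : ∀ i, ∃ p₀ : ℝ, 0 < p₀ ∧ p₀ ≤ 1 ∧ ∀ p, 0 < p → p ≤ p₀ → P i p) :
    ∀ᶠ p in 𝓝[>] (0 : ℝ), ∀ i, P i p := by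
  refine Filter.eventually_all.mpr fun i => ?_
  obtain ⟨p₀, h0, -, h1⟩ := h i
  filter_upwards [Ioc_mem_nhdsGT h0] with p hp
  exact h1 p hp.1 hp.2

instance iid_prob {α : Type} [MeasurableSpace α] (ν : Measure α) [IsProbabilityMeasure ν]
    (b n : ℕ) : IsProbabilityMeasure (iid ν b n) := by
  unfold iid
  infer_instance

theorem coin_prob {p : ℝ} (h0 : 0 ≤ p) (h1 : p ≤ 1) : IsProbabilityMeasure (coin p) := by
  constructor
  unfold coin
  rw [Measure.add_apply, Measure.smul_apply, Measure.smul_apply, measure_univ, measure_univ,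
    smul_eq_mul, smul_eq_mul, mul_one, mul_one, ← ENNReal.ofReal_add h0 (by linarith)]
  simp

/-- restriction to the edges `f k` -/
def rs {ι κ α : Type} (f : κ → ι) (x : ι → α) : κ → α := fun k => x (f k)

theorem rs_meas {ι κ α : Type} [MeasurableSpace α] (f : κ → ι) :
    Measurable (rs (α := α) f) :=
  measurable_pi_lambda _ fun k => measurable_pi_apply (f k)

theorem rs_map (h4 : S_INJ) {α : Type} [MeasurableSpace α] (ν : Measure α)
    [IsProbabilityMeasure ν] {b n N : ℕ} (f : Edge b N → Edge b n) (hf : Function.Injective f) :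
    (iid ν b n).map (rs f) = iid ν b N :=
  h4 _ _ _ ν f hf

theorem decF_of {b N n : ℕ} {e : Edge b n} {f : Edge b N → Edge b n} {e₀ : Edge b N}
    (hc : ∀ (J : Edge b n → ℝ) (σ : Pt b n → Bool), IsGS J σ → ∃ (τ : Bool → Bool)
      (s : Vert b N → Bool), Mx (fun a => J (f a)) τ s ∧
        bond (Sum.elim τ s : Pt b N → Bool) e₀ = bond σ e) {J : Edge b n → ℝ} {c : ℝ}
    (h : Dec e₀ (rs f J) c) : DecF e J c := by
  intro σ hσ
  obtain ⟨τ, s, h1, h2⟩ := hc J σ hσ
  rw [← h2]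
  exact h τ s h1

/-- C10 -/
theorem t_ASM (h1 : S_BAD) (h2 : S_FREE) (h3 : S_CELL) (h4 : S_INJ) (h5 : S_P1) (h6 : S_P2) :
    S_ASM := by
  intro b hb μ _ ha hs ε hε
  have hε2 : 0 < ε / 2 := ENNReal.half_pos hε.ne'
  have hadd : ε / 2 + ε / 2 = ε := ENNReal.add_halves ε
  obtain ⟨N, hN⟩ := h1 b hb μ ha hs (ε / 2) hε2
  -- the conditions on `p`
  have e1 := fin_all (ι := Edge b N) _ fun e₀ => h5 (Edge b N) μ (Dec e₀) (ε / 2) hε2
  have e2 := fin_all (ι := Edge b N) _ fun e₀ => h6 (Edge b N) μ (Dec e₀) (ε / 2) hε2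
  have e3 := (Finset.range N).eventually_all.mpr fun n _ =>
    fin_all (ι := Edge b n) _ fun e => h5 (Edge b n) μ (DecF e) (ε / 2) hε2
  have e4 := (Finset.range N).eventually_all.mpr fun n _ =>
    fin_all (ι := Edge b n) _ fun e => h6 (Edge b n) μ (DecF e) (ε / 2) hε2
  have eall := (e1.and e2).and (e3.and e4)
  obtain ⟨p₁, hp₁, hsub⟩ := (mem_nhdsGT_iff_exists_Ioc_subset).mp eall
  refine ⟨min p₁ 1, lt_min hp₁ one_pos, min_le_right _ _, fun p hp hpm n e => ?_⟩
  have hp1 : p ≤ 1 := hpm.trans (min_le_right _ _)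
  obtain ⟨⟨q1, q2⟩, q3, q4⟩ := hsub ⟨hp, hpm.trans (min_le_left _ _)⟩
  have := coin_prob hp.le hp1
  rcases Nat.lt_or_ge n N with hn | hn
  · have hz : (Measure.pi fun _ : Edge b n => μ) {J | ¬ Stab (DecF e) J} = 0 := by
      have h7 : ∀ᵐ J ∂(iid μ b n), Stab (DecF e) J :=
        (h2 b (by omega) μ ha n).mono fun J hJ => hJ.2 e
      exact ae_iff.mp h7
    have r1 := q3 n (Finset.mem_range.mpr hn) e
    have r2 := q4 n (Finset.mem_range.mpr hn) e
    rw [hz, zero_add] at r1 r2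
    have r3 : ε / 2 ≤ ε := ENNReal.half_le_self
    exact ⟨r1.trans r3, r2.trans r3⟩
  · obtain ⟨f, e₀, hf, -, hc⟩ := h3 b N n hn e
    have r0 := hN e₀
    have hmap := rs_map h4 μ f hf
    have hmapc := rs_map h4 (coin p) f hf
    constructor
    · have m1 : Measurable (Prod.map (rs (α := ℝ) f) (rs (α := ℝ) f)) :=
        (rs_meas f).prodMap (rs_meas f)
      have hsub1 : {q : (Edge b n → ℝ) × (Edge b n → ℝ) |
          ¬ ∃ c, DecF e q.1 c ∧ DecF e (pt1 p q) c} ⊆
          (Prod.map (rs (α := ℝ) f) (rs (α := ℝ) f)) ⁻¹'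
            {q | ¬ ∃ c, Dec e₀ q.1 c ∧ Dec e₀ (pt1 p q) c} := by
        rintro q hq ⟨c, hc1, hc2⟩
        exact hq ⟨c, decF_of hc hc1, decF_of hc hc2⟩
      refine (measure_mono hsub1).trans ((Measure.le_map_apply m1.aemeasurable _).trans ?_)
      rw [← Measure.map_prod_map _ _ (rs_meas f) (rs_meas f), hmap]
      refine (q1 e₀).trans ?_
      calc _ ≤ ε / 2 + ε / 2 := add_le_add_left r0 _
        _ = ε := hadd
    · have m1 : Measurable (Prod.map (rs (α := ℝ) f)
          (Prod.map (rs (α := ℝ) f) (rs (α := Bool) f))) :=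
        (rs_meas f).prodMap ((rs_meas f).prodMap (rs_meas f))
      have hsub1 : {q : (Edge b n → ℝ) × (Edge b n → ℝ) × (Edge b n → Bool) |
          ¬ ∃ c, DecF e q.1 c ∧ DecF e (pt2 q) c} ⊆
          (Prod.map (rs (α := ℝ) f) (Prod.map (rs (α := ℝ) f) (rs (α := Bool) f))) ⁻¹'
            {q | ¬ ∃ c, Dec e₀ q.1 c ∧ Dec e₀ (pt2 q) c} := by
        rintro q hq ⟨c, hc1, hc2⟩
        exact hq ⟨c, decF_of hc hc1, decF_of hc hc2⟩
      refine (measure_mono hsub1).trans ((Measure.le_map_apply m1.aemeasurable _).trans ?_)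
      rw [← Measure.map_prod_map _ _ (rs_meas f) ((rs_meas f).prodMap (rs_meas f)),
        ← Measure.map_prod_map _ _ (rs_meas f) (rs_meas f), hmap, hmapc]
      refine (q2 e₀).trans ?_
      calc _ ≤ ε / 2 + ε / 2 := add_le_add_left r0 _
        _ = ε := hadd

end

end Pool.Agent.N478.EC
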