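import Mathlib
import Pool.Agent.N906.KG.Grid
import Pool.Agent.N711.RS_CELL

/-!
# Project KG (helper906), part CELLQ: the gap principle for `q` points of the projective line
-/

set_option autoImplicit false
set_option linter.unusedSectionVars false

namespace Pool.Agent.N478.KG

open NumberField IsDedekindDomain Finset Pool.Agent.H691R3 Pool.Agent.W223.AK
open Pool.Agent.N906.KG (tl Al Of Gd S_CELLQ)
open Pool.Agent.N711.RS (zt chart abs_lt_of_floor box floor_mem card_box)

variable {K : Type} [Field K] [NumberField K] {q : ℕ}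

theorem of_wedge {α : Fin q → K × K} {x : K} (h : Of α x) (l : Fin q) :
    (aff x).1 * (α l).2 - (aff x).2 * (α l).1 ≠ 0 := by
  have := h l
  simpa [aff] using this

/-! ### Finite places -/

theorem cop {S : Finset (Pr K)} {α : Fin q → K × K} {x : K} {P : Fin q → Idl K} (hα : Al α)
    (hG : Gd S α) (hx : Of α x) (hP : Pool.Agent.N906.KG.IsP S α x P) {v : Pr K} (hv : v ∉ S)
    {l l' : Fin q} (hl : l ≠ l') (h1 : P l v ≠ 0) (h2 : P l' v ≠ 0) : False := by
  have hN := log_Nv_pos v
  have key : ∀ l, P l v ≠ 0 → Real.log (Nv v) ≤ lam (Sum.inr v : Pl K) (aff x) (α l) := by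
    intro l h
    rw [hP.2 l v hv]
    have : (1 : ℝ) ≤ (P l v : ℝ) := by
      exact_mod_cast Nat.one_le_iff_ne_zero.2 h
    nlinarith
  have h3 := lam_triangle (Sum.inr v : Pl K) (hα.1 l) (aff_ne_zero x) (hα.1 l') (hα.2 l l' hl)
    (wedge_ne_comm (of_wedge hx l)) (of_wedge hx l') (Real.log (Nv v))
    (by rw [lam_comm]; exact key l h1) (key l' h2)
  have h4 : lam (Sum.inr v : Pl K) (α l) (α l') = 0 := by
    show lamA (fv v) (α l) (α l') = 0
    unfold lamA
    rw [(hG v hv).1 l, (hG v hv).1 l', (hG v hv).2 l l' hl]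
    norm_num
  have h5 : loss (Sum.inr v : Pl K) = 0 := rfl
  rw [h4, h5] at h3
  linarith

theorem fin_out {S : Finset (Pr K)} {α : Fin q → K × K} {x y : K} {P Q D : Fin q → Idl K}
    (hα : Al α) (hG : Gd S α) (hx : Of α x) (hy : Of α y)
    (hP : Pool.Agent.N906.KG.IsP S α x P) (hQ : Pool.Agent.N906.KG.IsP S α y Q)
    (hD : ∀ l, D l ≤ P l) (hD' : ∀ l, D l ≤ Q l) (hxy : x ≠ y) {v : Pr K} (hv : v ∉ S) :
    ∑ l, (D l v : ℝ) * Real.log (Nv v) ≤ lam (Sum.inr v : Pl K) (aff x) (aff y) := by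
  have hN := log_Nv_pos v
  have h5 : loss (Sum.inr v : Pl K) = 0 := rfl
  have h1 : ∀ l, (D l v : ℝ) * Real.log (Nv v) ≤ lam (Sum.inr v : Pl K) (aff x) (aff y) := by
    intro l
    have h2 := lam_triangle (Sum.inr v : Pl K) (aff_ne_zero x) (hα.1 l) (aff_ne_zero y)
      (aff_wedge hxy) (of_wedge hx l) (wedge_ne_comm (of_wedge hy l))
      ((D l v : ℝ) * Real.log (Nv v))
      (by
        rw [hP.2 l v hv]
        have : (D l v : ℝ) ≤ P l v := by exact_mod_cast hD l v
        exact mul_le_mul_of_nonneg_right this hN.le)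
      (by
        rw [lam_comm, hQ.2 l v hv]
        have : (D l v : ℝ) ≤ Q l v := by exact_mod_cast hD' l v
        exact mul_le_mul_of_nonneg_right this hN.le)
    rw [h5] at h2
    linarith
  by_cases h4 : ∃ l, D l v ≠ 0
  · obtain ⟨l, hl⟩ := h4
    rw [Finset.sum_eq_single l]
    · exact h1 l
    · intro l' _ hl'
      have h6 : D l' v = 0 := by
        by_contra h7
        have e1 := hD l v
        have e2 := hD l' v
        exact cop hα hG hx hP hv hl' (by omega) (by omega)
      rw [h6, Nat.cast_zero, zero_mul]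
    · intro h
      exact absurd (mem_univ l) h
  · push Not at h4
    have h6 : ∑ l, (D l v : ℝ) * Real.log (Nv v) = 0 := by
      refine Finset.sum_eq_zero fun l _ => ?_
      rw [h4 l, Nat.cast_zero, zero_mul]
    rw [h6]
    have h7 := lam_ge (Sum.inr v : Pl K) (aff_ne_zero x) (aff_ne_zero y) (aff_wedge hxy)
    rw [h5, neg_zero] at h7
    exact h7

/-- the product formula -/
theorem glob {S : Finset (Pr K)} {α : Fin q → K × K} {x y : K} {P Q D : Fin q → Idl K}
    (hα : Al α) (hG : Gd S α) (hx : Of α x) (hy : Of α y)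
    (hP : Pool.Agent.N906.KG.IsP S α x P) (hQ : Pool.Agent.N906.KG.IsP S α y Q)
    (hD : ∀ l, D l ≤ P l) (hD' : ∀ l, D l ≤ Q l) (hoff : ∀ l, OffS S (D l)) (hxy : x ≠ y)
    (s : Pl K → ℝ) (hs : ∀ v ∈ S, s (Sum.inr v) ≤ lam (Sum.inr v : Pl K) (aff x) (aff y)) :
    tl D + ∑ v ∈ S, s (Sum.inr v) +
      ∑ w : InfinitePlace K, lam (Sum.inl w : Pl K) (aff x) (aff y) ≤
      hr (aff x) + hr (aff y) := by
  classical
  rw [← sum_lam (aff_ne_zero x) (aff_ne_zero y) (aff_wedge hxy)]
  set F := (lamF_support_finite (aff_ne_zero x) (aff_ne_zero y) (aff_wedge hxy)).toFinset with hF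
  set T : Finset (Pr K) := (F ∪ S) ∪ (univ : Finset (Fin q)).biUnion (fun l => (D l).support)
    with hT
  have hfs : ∑ᶠ v : HeightOneSpectrum (𝓞 K), lamA (fv v) (aff x) (aff y) =
      ∑ v ∈ T, lamA (fv v) (aff x) (aff y) := by
    refine finsum_eq_sum_of_support_subset _ ?_
    intro v hv
    rw [hT, Finset.coe_union, Finset.coe_union]
    left; left
    rw [hF, Set.Finite.coe_toFinset]
    exact hv
  have h4 : tl D = ∑ v ∈ T, ∑ l, (D l v : ℝ) * Real.log (Nv v) := by
    unfold tl
    rw [Finset.sum_comm]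
    refine Finset.sum_congr rfl fun l _ => len_eq_sum ?_
    intro v hv
    rw [hT]
    exact Finset.mem_union_right _ (Finset.mem_biUnion.2 ⟨l, mem_univ l, hv⟩)
  have h5 : ∑ v ∈ S, s (Sum.inr v) = ∑ v ∈ T, if v ∈ S then s (Sum.inr v) else 0 := by
    rw [← Finset.sum_filter]
    refine Finset.sum_congr ?_ fun _ _ => rfl
    ext v
    rw [Finset.mem_filter, hT]
    constructor
    · intro h
      exact ⟨Finset.mem_union_left _ (Finset.mem_union_right _ h), h⟩
    · exact fun h => h.2
  have h6 : tl D + ∑ v ∈ S, s (Sum.inr v) ≤ ∑ v ∈ T, lamA (fv v) (aff x) (aff y) := by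
    rw [h4, h5, ← Finset.sum_add_distrib]
    refine Finset.sum_le_sum fun v _ => ?_
    by_cases hv : v ∈ S
    · rw [if_pos hv]
      have h7 : ∑ l, (D l v : ℝ) * Real.log (Nv v) = 0 := by
        refine Finset.sum_eq_zero fun l _ => ?_
        rw [hoff l v hv, Nat.cast_zero, zero_mul]
      rw [h7, zero_add]
      exact hs v hv
    · rw [if_neg hv, add_zero]
      exact fin_out hα hG hx hy hP hQ hD hD' hxy hv
  rw [hfs]
  have h8 : ∑ w : InfinitePlace K, lam (Sum.inl w : Pl K) (aff x) (aff y) =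
      ∑ w : InfinitePlace K, (w.mult : ℝ) * lamA w.1 (aff x) (aff y) := rfl
  rw [h8]
  linarith

/-! ### Charts at the infinite places -/

open scoped Classical in
/-- the centre of the disc in the chart of `x` -/
noncomputable def cz (w : InfinitePlace K) (a : K × K) (x : K) : K :=
  if w x ≤ 1 then a.1 / a.2 else a.2 / a.1

/-- the constant -/
noncomputable def ca (w : InfinitePlace K) (a : K × K) : ℝ :=
  2 + 2 * max (w a.1) (w a.2) / w a.2 + 2 * max (w a.1) (w a.2) / w a.1

theorem wnn (w : InfinitePlace K) (x : K) : 0 ≤ w x := apply_nonneg w x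

theorem ca_ge (w : InfinitePlace K) (a : K × K) : 2 ≤ ca w a := by
  unfold ca
  have h1 : 0 ≤ max (w a.1) (w a.2) := le_max_of_le_left (wnn w a.1)
  have h2 : 0 ≤ 2 * max (w a.1) (w a.2) / w a.2 := div_nonneg (by linarith) (wnn w _)
  have h3 : 0 ≤ 2 * max (w a.1) (w a.2) / w a.1 := div_nonneg (by linarith) (wnn w _)
  linarith

theorem chart_close {w : InfinitePlace K} {x : K} {a : K × K} (ha : a ≠ 0) {ρ : ℝ} (hρ : 0 < ρ)
    (h : w (x * a.2 - a.1) ≤ 2 * ρ * (max (w x) 1 * max (w a.1) (w a.2))) :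
    w (zt w x - cz w a x) ≤ ca w a * ρ := by
  classical
  have h1 : 0 ≤ max (w a.1) (w a.2) := le_max_of_le_left (wnn w a.1)
  have h2 : 0 ≤ 2 * max (w a.1) (w a.2) / w a.2 := div_nonneg (by linarith) (wnn w _)
  have h3 : 0 ≤ 2 * max (w a.1) (w a.2) / w a.1 := div_nonneg (by linarith) (wnn w _)
  have g1 : 2 * ρ ≤ ca w a * ρ := mul_le_mul_of_nonneg_right (ca_ge w a) hρ.le
  have g2 : 2 * max (w a.1) (w a.2) / w a.2 * ρ ≤ ca w a * ρ := by
    refine mul_le_mul_of_nonneg_right ?_ hρ.le
    unfold ca; linarith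
  have g3 : 2 * max (w a.1) (w a.2) / w a.1 * ρ ≤ ca w a * ρ := by
    refine mul_le_mul_of_nonneg_right ?_ hρ.le
    unfold ca; linarith
  unfold zt cz
  by_cases hx : w x ≤ 1
  · rw [if_pos hx, if_pos hx]
    rw [max_eq_right hx, one_mul] at h
    by_cases h0 : a.2 = 0
    · have h0' : a.1 ≠ 0 := fun h' => ha (Prod.ext h' h0)
      have hw : 0 < w a.1 := InfinitePlace.pos_iff.2 h0'
      rw [h0, mul_zero, zero_sub, map_zero] at h
      have e1 : w (-a.1) = w a.1 := w.1.map_neg _
      rw [e1, max_eq_left hw.le] at h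
      have h4 : 1 ≤ 2 * ρ := by
        by_contra hc
        push Not at hc
        nlinarith
      rw [h0, div_zero, sub_zero]
      linarith
    · have hw : 0 < w a.2 := InfinitePlace.pos_iff.2 h0
      refine le_trans ?_ g2
      have e : x - a.1 / a.2 = (x * a.2 - a.1) / a.2 := by field_simp
      rw [e, map_div₀, div_mul_eq_mul_div]
      refine div_le_div_of_nonneg_right ?_ hw.le
      linarith
  · rw [if_neg hx, if_neg hx]
    push Not at hx
    have hw0 : 0 < w x := by linarith
    have hx0 : x ≠ 0 := by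
      rintro rfl
      rw [map_zero] at hx
      linarith
    rw [max_eq_left hx.le] at h
    by_cases h0 : a.1 = 0
    · have h0' : a.2 ≠ 0 := fun h' => ha (Prod.ext h0 h')
      have hw : 0 < w a.2 := InfinitePlace.pos_iff.2 h0'
      rw [h0, sub_zero, map_zero, map_mul, max_eq_right hw.le] at h
      have h4 : 1 ≤ 2 * ρ := by
        by_contra hc
        push Not at hc
        have : 0 < w x * w a.2 := mul_pos hw0 hw
        nlinarith
      rw [h0, div_zero, sub_zero, map_inv₀]
      have h5 := inv_le_one_of_one_le₀ hx.le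
      linarith
    · have hw : 0 < w a.1 := InfinitePlace.pos_iff.2 h0
      refine le_trans ?_ g3
      have e : x⁻¹ - a.2 / a.1 = -(x * a.2 - a.1) / (x * a.1) := by
        field_simp
        ring
      have e1 : w (-(x * a.2 - a.1)) = w (x * a.2 - a.1) := w.1.map_neg _
      rw [e, map_div₀, map_mul, e1, div_mul_eq_mul_div, div_le_div_iff₀ (mul_pos hw0 hw) hw]
      have h6 := mul_le_mul_of_nonneg_right h hw.le
      calc w (x * a.2 - a.1) * w a.1 ≤ 2 * ρ * (w x * max (w a.1) (w a.2)) * w a.1 := h6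
        _ = _ := by ring

open scoped Classical in
/-- the cell of a point -/
noncomputable def cel (w : InfinitePlace K) (a : K × K) (r : ℝ) (x : K) : Bool × ℤ × ℤ :=
  (decide (w x ≤ 1), ⌊(w.embedding (zt w x - cz w a x)).re / r⌋,
    ⌊(w.embedding (zt w x - cz w a x)).im / r⌋)

theorem cel_eq {w : InfinitePlace K} {a : K × K} {r : ℝ} {x y : K} (hr : 0 < r)
    (h : cel w a r x = cel w a r y) :
    w (x - y) ≤ 2 * r * (max (w x) 1 * max (w y) 1) := by
  classical
  unfold cel at h
  rw [Prod.mk.injEq, Prod.mk.injEq] at h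
  obtain ⟨h1, h2, h3⟩ := h
  have h1' : w x ≤ 1 ↔ w y ≤ 1 := by
    rw [decide_eq_decide] at h1
    exact h1
  have hcz : cz w a x = cz w a y := by
    unfold cz
    by_cases hx : w x ≤ 1
    · rw [if_pos hx, if_pos (h1'.1 hx)]
    · rw [if_neg hx, if_neg (fun hy => hx (h1'.2 hy))]
  rw [chart h1']
  refine mul_le_mul_of_nonneg_right ?_ (by positivity)
  have h4 : w (zt w x - zt w y) = ‖w.embedding (zt w x - zt w y)‖ :=
    (InfinitePlace.norm_embedding_eq w _).symm
  rw [h4]
  refine (Complex.norm_le_abs_re_add_abs_im _).trans ?_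
  have e : w.embedding (zt w x - zt w y) = w.embedding (zt w x - cz w a x) -
      w.embedding (zt w y - cz w a y) := by
    rw [← map_sub, hcz]
    congr 1
    ring
  rw [e, Complex.sub_re, Complex.sub_im]
  have h5 := abs_lt_of_floor hr h2
  have h6 := abs_lt_of_floor hr h3
  linarith

theorem cel_mem {w : InfinitePlace K} {a : K × K} {r ρ : ℝ} {x : K} {m : ℕ} (hr : 0 < r)
    (h : w (zt w x - cz w a x) ≤ ρ) (hm : ρ ≤ m * r) : cel w a r x ∈ box w m := by
  classical
  have h1 : ‖w.embedding (zt w x - cz w a x)‖ ≤ ρ := by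
    rw [InfinitePlace.norm_embedding_eq]
    exact h
  have h2 := (Complex.abs_re_le_norm _).trans h1
  have h3 := (Complex.abs_im_le_norm _).trans h1
  unfold cel Pool.Agent.N711.RS.box
  rw [Finset.mem_product, Finset.mem_product]
  refine ⟨Finset.mem_univ _, floor_mem hr h2 hm, ?_⟩
  split_ifs with hw
  · rw [Finset.mem_singleton]
    have h4 : (w.embedding (zt w x - cz w a x)).im = 0 := by
      rw [← InfinitePlace.embedding_of_isReal_apply hw]
      exact Complex.ofReal_im _
    show ⌊(w.embedding (zt w x - cz w a x)).im / r⌋ = 0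
    rw [h4, zero_div, Int.floor_zero]
  · exact floor_mem hr h3 hm

/-! ### Conclusion -/

/-- **the gap principle in cells** -/
theorem cellq (K : Type) [Field K] [NumberField K] : S_CELLQ K := by
  classical
  intro q α S hα hG
  set d : ℕ := Module.finrank ℚ K with hd
  have hd0 : 0 < d := Module.finrank_pos
  have hdR : (0 : ℝ) < d := by exact_mod_cast hd0
  have hsum : ∑ w : InfinitePlace K, w.mult = d := InfinitePlace.sum_mult_eq
  set A : ℝ := 1 + ∑ w : InfinitePlace K, ∑ l, ca w (α l) with hA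
  have hca0 : ∀ (w : InfinitePlace K) (l : Fin q), 0 ≤ ca w (α l) := fun w l => by
    linarith [ca_ge w (α l)]
  have hA1 : 1 ≤ A := by
    have : 0 ≤ ∑ w : InfinitePlace K, ∑ l, ca w (α l) :=
      Finset.sum_nonneg fun w _ => Finset.sum_nonneg fun l _ => hca0 w l
    rw [hA]; linarith
  have hAc : ∀ (w : InfinitePlace K) (l : Fin q), ca w (α l) ≤ A := by
    intro w l
    have h1 : ca w (α l) ≤ ∑ l, ca w (α l) :=
      Finset.single_le_sum (f := fun l => ca w (α l)) (fun l _ => hca0 w l) (mem_univ l)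
    have h2 : ∑ l, ca w (α l) ≤ ∑ w : InfinitePlace K, ∑ l, ca w (α l) :=
      Finset.single_le_sum (f := fun w : InfinitePlace K => ∑ l, ca w (α l))
        (fun w _ => Finset.sum_nonneg fun l _ => hca0 w l) (mem_univ w)
    rw [hA]; linarith
  have hA0 : 0 < A := by linarith
  refine ⟨(80 * A) ^ d, by positivity, fun X D τ s F hX hs hoff hF => ?_⟩
  set U : ℝ := 2 * X - tl D - ∑ v ∈ Spl S, s v with hU
  set Λ : ℝ := 1 + 4 * Real.exp (U / d) with hΛ
  have hexp : 0 < Real.exp (U / d) := Real.exp_pos _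
  have hΛ1 : 1 ≤ Λ := by rw [hΛ]; linarith
  have hΛ0 : 0 < Λ := by linarith
  have hAΛ : 1 ≤ A * Λ := by nlinarith
  set ρ : InfinitePlace K → ℝ := fun w => Real.exp (-(s (Sum.inl w)) / w.mult) with hρ
  have hρ0 : ∀ w, 0 < ρ w := fun w => Real.exp_pos _
  have hmul : ∀ w : InfinitePlace K, (0 : ℝ) < w.mult := fun w => by
    exact_mod_cast InfinitePlace.mult_pos
  set r : InfinitePlace K → ℝ := fun w => ρ w / Λ with hr
  have hr0 : ∀ w, 0 < r w := fun w => div_pos (hρ0 w) hΛ0
  set m : ℕ := ⌈A * Λ⌉₊ with hm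
  have hm1 : A * Λ ≤ m := Nat.le_ceil _
  have hm2 : (m : ℝ) ≤ A * Λ + 1 := (Nat.ceil_lt_add_one (by linarith)).le
  have hρr : ∀ (w : InfinitePlace K) (l : Fin q), ca w (α l) * ρ w ≤ m * r w := by
    intro w l
    rw [hr]
    simp only
    rw [mul_div_assoc', le_div_iff₀ hΛ0]
    have h1 := mul_le_mul_of_nonneg_right (hAc w l) (mul_nonneg (hρ0 w).le hΛ0.le)
    have h2 := mul_le_mul_of_nonneg_right hm1 (hρ0 w).le
    nlinarith
  have hmemS : ∀ w : InfinitePlace K, (Sum.inl w : Pl K) ∈ Spl S := by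
    intro w
    unfold Spl
    exact Finset.inl_mem_disjSum.2 (mem_univ w)
  have hmemS' : ∀ v ∈ S, (Sum.inr v : Pl K) ∈ Spl S := by
    intro v hv
    unfold Spl
    exact Finset.inr_mem_disjSum.2 hv
  -- the cells
  have hmem : ∀ x ∈ F, (fun w => cel w (α (τ (Sum.inl w))) (r w) x) ∈
      Fintype.piFinset (fun w => box w m) := by
    intro x hx
    obtain ⟨hpt, _, hlm, _⟩ := hF x hx
    rw [Fintype.mem_piFinset]
    intro w
    refine cel_mem (hr0 w) (chart_close (hα.1 _) (hρ0 w) ?_) (hρr w _)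
    have h1 := hlm (Sum.inl w) (hmemS w)
    have h2 : lam (Sum.inl w : Pl K) (aff x) (α (τ (Sum.inl w))) =
      (w.mult : ℝ) * lamA w.1 (aff x) (α (τ (Sum.inl w))) := rfl
    have h3 : loss (Sum.inl w : Pl K) = (w.mult : ℝ) * Real.log 2 := rfl
    rw [h2, h3] at h1
    have h4 : s (Sum.inl w) / w.mult - Real.log 2 ≤ lamA w.1 (aff x) (α (τ (Sum.inl w))) := by
      have h5 : s (Sum.inl w) / w.mult ≤
          lamA w.1 (aff x) (α (τ (Sum.inl w))) + Real.log 2 := by
        rw [div_le_iff₀ (hmul w)]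
        linarith
      linarith
    rw [le_lamA_iff w.1 (aff_ne_zero x) (hα.1 _) (of_wedge hpt _)] at h4
    have e1 : Real.exp (-(s (Sum.inl w) / w.mult - Real.log 2)) = 2 * ρ w := by
      rw [neg_sub, sub_eq_add_neg, Real.exp_add, Real.exp_log (by norm_num), hρ]
      simp only
      rw [neg_div]
    rw [e1] at h4
    have e2 : (aff x).1 * (α (τ (Sum.inl w))).2 - (aff x).2 * (α (τ (Sum.inl w))).1 =
        x * (α (τ (Sum.inl w))).2 - (α (τ (Sum.inl w))).1 := by
      simp [aff]
    have e3 : max (w.1 (aff x).1) (w.1 (aff x).2) = max (w x) 1 := by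
      simp only [aff, map_one]
      rfl
    rw [e2, e3] at h4
    exact h4
  have hinj : Set.InjOn (fun x => fun w => cel w (α (τ (Sum.inl w))) (r w) x) (F : Set K) := by
    intro x hx y hy hxy
    by_contra hne
    obtain ⟨hpx, hhx, hlx, P, hP, hDP⟩ := hF x hx
    obtain ⟨hpy, hhy, hly, Q, hQ, hDQ⟩ := hF y hy
    have h1 := glob hα hG hpx hpy hP hQ hDP hDQ hoff hne s (by
      intro v hv
      have h2 := lam_triangle (Sum.inr v : Pl K) (aff_ne_zero x) (hα.1 (τ (Sum.inr v)))
        (aff_ne_zero y) (aff_wedge hne) (of_wedge hpx _) (wedge_ne_comm (of_wedge hpy _))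
        (s (Sum.inr v)) (by
          have := hlx (Sum.inr v) (hmemS' v hv)
          have e : loss (Sum.inr v : Pl K) = 0 := rfl
          rw [e, add_zero] at this
          exact this) (by
          have := hly (Sum.inr v) (hmemS' v hv)
          have e : loss (Sum.inr v : Pl K) = 0 := rfl
          rw [e, add_zero] at this
          rw [lam_comm]
          exact this)
      have e : loss (Sum.inr v : Pl K) = 0 := rfl
      rw [e, sub_zero] at h2
      exact h2)
    have h2 : ∀ w : InfinitePlace K, s (Sum.inl w) - (w.mult : ℝ) * Real.log (2 / Λ) ≤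
        lam (Sum.inl w : Pl K) (aff x) (aff y) := by
      intro w
      have h3 := cel_eq (hr0 w) (congrFun hxy w)
      have h6 : 0 < 2 * r w := by have := hr0 w; positivity
      have h7 : 2 * r w = (2 / Λ) * ρ w := by
        rw [hr]
        simp only
        ring
      have h8 : Real.log (2 * r w) = Real.log (2 / Λ) - s (Sum.inl w) / w.mult := by
        rw [h7, Real.log_mul (by positivity) (hρ0 w).ne', hρ]
        simp only
        rw [Real.log_exp]
        ring
      have h4 : -Real.log (2 * r w) ≤ lamA w.1 (aff x) (aff y) := by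
        rw [le_lamA_iff w.1 (aff_ne_zero x) (aff_ne_zero y) (aff_wedge hne), neg_neg,
          Real.exp_log h6]
        have e2 : (aff x).1 * (aff y).2 - (aff x).2 * (aff y).1 = x - y := by
          simp [aff]
        have e3 : ∀ z : K, max (w.1 (aff z).1) (w.1 (aff z).2) = max (w z) 1 := by
          intro z
          simp only [aff, map_one]
          rfl
        rw [e2, e3, e3]
        exact h3
      rw [h8] at h4
      have h5 := mul_le_mul_of_nonneg_left h4 (hmul w).le
      have e : (w.mult : ℝ) * -(Real.log (2 / Λ) - s (Sum.inl w) / w.mult) =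
          s (Sum.inl w) - w.mult * Real.log (2 / Λ) := by
        rw [neg_sub, mul_sub, mul_div_cancel₀ _ (hmul w).ne']
      rw [e] at h5
      exact h5
    have h3 := Finset.sum_le_sum fun w (_ : w ∈ (univ : Finset (InfinitePlace K))) => h2 w
    rw [Finset.sum_sub_distrib, ← Finset.sum_mul] at h3
    have h4 : (∑ w : InfinitePlace K, (w.mult : ℝ)) = d := by
      rw [← hsum]
      push_cast
      rfl
    rw [h4] at h3
    have h5 : Real.log (2 / Λ) < -(U / d) := by
      rw [Real.log_lt_iff_lt_exp (by positivity), Real.exp_neg, div_lt_iff₀ hΛ0, hΛ]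
      have h6 : (Real.exp (U / d))⁻¹ * (1 + 4 * Real.exp (U / d)) = (Real.exp (U / d))⁻¹ + 4 := by
        field_simp
      rw [h6]
      have : 0 < (Real.exp (U / d))⁻¹ := by positivity
      linarith
    have h6 : (d : ℝ) * Real.log (2 / Λ) < -U := by
      have h7 := mul_lt_mul_of_pos_left h5 hdR
      have h8 : (d : ℝ) * -(U / d) = -U := by field_simp
      rw [h8] at h7
      exact h7
    have h7 : ∑ v ∈ Spl S, s v = ∑ w : InfinitePlace K, s (Sum.inl w) +
        ∑ v ∈ S, s (Sum.inr v) := by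
      unfold Spl
      rw [Finset.sum_disjSum]
    linarith
  have hcard : F.card ≤ (Fintype.piFinset (fun w : InfinitePlace K => box w m)).card :=
    Finset.card_le_card_of_injOn _ (fun x hx => hmem x hx) hinj
  rw [Fintype.card_piFinset] at hcard
  have h1 : (F.card : ℝ) ≤ ∏ w : InfinitePlace K, ((box w m).card : ℝ) := by
    exact_mod_cast hcard
  have h2 : ∏ w : InfinitePlace K, ((box w m).card : ℝ) ≤
      ∏ w : InfinitePlace K, (10 * (A * Λ)) ^ w.mult := by
    refine Finset.prod_le_prod (fun _ _ => Nat.cast_nonneg _) fun w _ => (card_box w m).trans ?_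
    refine pow_le_pow_left₀ (by positivity) ?_ _
    linarith
  rw [Finset.prod_pow_eq_pow_sum, hsum] at h2
  have h3 : Λ ^ d ≤ 2 ^ d * (4 ^ d * (Real.exp U + 1)) := by
    have h4 := add_pow_le (show (0 : ℝ) ≤ 1 by norm_num)
      (show 0 ≤ 4 * Real.exp (U / d) by positivity) d
    rw [one_pow, mul_pow, ← Real.exp_nat_mul, mul_div_cancel₀ _ hdR.ne'] at h4
    refine h4.trans ?_
    have h5 : (2 : ℝ) ^ (d - 1) ≤ 2 ^ d := pow_le_pow_right₀ (by norm_num) (Nat.sub_le _ _)
    have h6 : (1 : ℝ) ≤ 4 ^ d := one_le_pow₀ (by norm_num)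
    have h7 := Real.exp_pos U
    have h8 : 1 + 4 ^ d * Real.exp U ≤ 4 ^ d * (Real.exp U + 1) := by linarith
    exact mul_le_mul h5 h8 (by positivity) (by positivity)
  refine (h1.trans h2).trans ?_
  rw [mul_pow, mul_pow]
  have h4 := mul_le_mul_of_nonneg_left h3 (show (0 : ℝ) ≤ 10 ^ d * A ^ d by positivity)
  have h5 : (80 * A : ℝ) ^ d = 10 ^ d * A ^ d * (2 ^ d * 4 ^ d) := by
    rw [← mul_pow, ← mul_pow, ← mul_pow]
    congr 1
    ring
  rw [h5]
  calc (10 : ℝ) ^ d * (A ^ d * Λ ^ d) = 10 ^ d * A ^ d * Λ ^ d := by ring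
    _ ≤ 10 ^ d * A ^ d * (2 ^ d * (4 ^ d * (Real.exp U + 1))) := h4
    _ = _ := by ring

end Pool.Agent.N478.KG
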