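import Pool.Agent.N652.OM.Stm2
import Pool.Agent.N957.NH.CoreAll

/-!
# Project OM: the finite-dimensional theorem with weak irreducibility (CORE2)
-/

set_option autoImplicit false

namespace Pool.Agent.N478.OM

open Matrix Finset
open scoped ComplexOrder
open Pool.Agent.W661.RC Pool.Agent.N303.KQ Pool.Agent.W683.RC Pool.Agent.N957.NH
open Pool.Agent.N652.OM (IrrB)

noncomputable section

theorem CONC2 (κ0 : ℝ) (hκ0 : 0 < κ0) : ∃ κ : ℝ, 0 < κ ∧ ∀ δ : ℝ, 0 < δ → ∃ ε : ℝ, 0 < ε ∧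
    ∀ (d k : ℕ) (u : Fin k → Mt d) (O : Out d), 0 < d → IrrB u δ κ →
      (∀ φ, Adm 20 φ → en u (fc O φ) ≤ ε * d) → (d : ℝ) - D0 O ≤ ε * d →
      ∃ m0 : ℝ, 0 < m0 ∧
        ∑ i, (if 9 / 10 * m0 ≤ rk O i ∧ rk O i ≤ 11 / 10 * m0 then 0 else rk O i) ≤ κ0 * d := by
  refine ⟨min (1 / 16) (κ0 / 8), by positivity, fun δ hδ =>
    ⟨min (1 / 2) δ, by positivity, fun d k u O hd hirr hen hD => ?_⟩⟩
  have hd0 : (0 : ℝ) < d := by exact_mod_cast hd
  obtain ⟨m0, hm0, hs0⟩ := CONC.abstr (fun i => rk O i) (fun i => Nat.cast_nonneg _) hd0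
    (e1 := min (1 / 16) (κ0 / 8)) (by
      rw [CONC.sum_rk]
      have := mul_le_mul_of_nonneg_right (min_le_left (1 / 2) δ) hd0.le
      linarith) (min_le_left _ _) (by
      intro φ hφ
      obtain ⟨m, hm⟩ := hirr (fc O φ) (CONC.fc_contr hφ.nn hφ.le)
        ((hen φ hφ).trans (mul_le_mul_of_nonneg_right (min_le_right _ _) hd0.le))
      exact ⟨m, (CONC.key φ m).trans hm⟩)
  refine ⟨m0, hm0, hs0.trans ?_⟩
  have h1 : 8 * min (1 / 16) (κ0 / 8) ≤ κ0 := by
    have := min_le_right (1 / 16) (κ0 / 8)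
    linarith
  exact mul_le_mul_of_nonneg_right h1 hd0.le

theorem CORE2 (hAVG : S_AVG) (hPROJ : S_PROJ) (hMONO : S_MONO) (hFIN : S_FIN) :
    Pool.Agent.N652.OM.S_CORE2 := by
  intro k l K0 v vh vl hK0
  obtain ⟨Cf, hCf, hFIN⟩ := hFIN
  set eF : ℝ := 1 / (4 * Cf) with heF
  have heFp : 0 < eF := by rw [heF]; positivity
  obtain ⟨κ, hκ, hCONC⟩ := CONC2 eF heFp
  refine ⟨κ, hκ, fun δ hδ => ?_⟩
  obtain ⟨eC, heC, hCONC⟩ := hCONC δ hδ
  obtain ⟨eM, heM, hMONO⟩ := hMONO 20 (eC / (k + 1)) (by norm_num) (by positivity)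
  choose L hL0 hL using fun s t => comm_word (v s t)
  choose Lh hLh0 hLh using fun t => comm_word (vh t)
  choose Ll hLl0 hLl using fun j => comm_word (vl j)
  set M : ℝ := K0 * (∑ s, ∑ t, (2 * L s t + 8)) + K0 * (∑ t, (2 * Lh t + 8)) + K0 * l +
    (∑ j, (2 * Ll j + 8)) + 1 with hM
  have hM1 : 0 ≤ K0 * (∑ s, ∑ t, (2 * L s t + 8)) :=
    mul_nonneg hK0.le (sum_nonneg fun s _ => sum_nonneg fun t _ => by linarith [hL0 s t])
  have hM2 : 0 ≤ K0 * (∑ t, (2 * Lh t + 8)) :=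
    mul_nonneg hK0.le (sum_nonneg fun t _ => by linarith [hLh0 t])
  have hM3 : 0 ≤ K0 * l := by positivity
  have hM4 : 0 ≤ ∑ j, (2 * Ll j + 8) := sum_nonneg fun t _ => by linarith [hLl0 t]
  have hMp : 1 ≤ M := by rw [hM]; linarith
  set e0 : ℝ := min eF (min eC eM) with he0
  have he0p : 0 < e0 := lt_min heFp (lt_min heC heM)
  refine ⟨e0 / (4 * M), by positivity, ?_⟩
  intro d U UK H W O hd hO1 hO2 hO3 hIrr hr1 hr2 hr3 hr4
  set ε : ℝ := e0 / (4 * M) with hε
  have hεp : 0 < ε := by rw [hε]; positivity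
  have hMε : 4 * (M * ε) = e0 := by rw [hε]; field_simp
  have hd0 : (0 : ℝ) < d := by exact_mod_cast hd
  have hεF : 4 * (M * ε) ≤ eF := by rw [hMε]; exact min_le_left _ _
  have hεC : 4 * (M * ε) ≤ eC := by rw [hMε]; exact (min_le_right _ _).trans (min_le_left _ _)
  have hεM : 4 * (M * ε) ≤ eM := by rw [hMε]; exact (min_le_right _ _).trans (min_le_right _ _)
  have hε1 : ε ≤ M * ε := by nlinarith
  have hBlk : BlkA (fun s => (UK s).1) K0 ε O := ⟨hO1, hO2, hO3⟩
  have hun : ∀ u : unitaryGroup (Fin d) ℂ, (u.1)ᴴ * u.1 = 1 := un_conj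
  -- near invariance for the generators
  have hN1 : ∀ s, NearInv O (U s).1 (M * ε) := by
    intro s
    have h1 := nearInv_of (U := UK) hK0.le hBlk (hun (U s)) (v s) (L s) (hL0 s)
      (fun t x => hL s t d UK x) (η := ε) (fun t => hr1 s t)
    have h2 : K0 * ∑ t, (2 * L s t * ε + 8 * ε) + ε ≤ M * ε := by
      have e1 : ∑ t, (2 * L s t * ε + 8 * ε) = (∑ t, (2 * L s t + 8)) * ε := by
        rw [sum_mul]; exact sum_congr rfl fun t _ => by ring
      rw [e1]
      have h3 : ∑ t, (2 * L s t + 8) ≤ ∑ s, ∑ t, (2 * L s t + 8) :=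
        single_le_sum (f := fun s => ∑ t, (2 * L s t + 8))
          (fun s _ => sum_nonneg fun t _ => by linarith [hL0 s t]) (mem_univ s)
      have h4 := mul_le_mul_of_nonneg_left h3 hK0.le
      have h5 : (K0 * (∑ t, (2 * L s t + 8)) + 1) * ε ≤ M * ε :=
        mul_le_mul_of_nonneg_right (by rw [hM]; linarith) hεp.le
      linarith
    intro a ha ha1
    obtain ⟨b, hb, hb2⟩ := h1 a ha ha1
    exact ⟨b, hb, hb2.trans (mul_le_mul_of_nonneg_right h2 hd0.le)⟩
  have hN2 : NearInv O H.1 (M * ε) := by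
    have h1 := nearInv_of (U := UK) hK0.le hBlk (hun H) vh Lh hLh0
      (fun t x => hLh t d UK x) (η := ε) (fun t => hr2 t)
    have h2 : K0 * ∑ t, (2 * Lh t * ε + 8 * ε) + ε ≤ M * ε := by
      have e1 : ∑ t, (2 * Lh t * ε + 8 * ε) = (∑ t, (2 * Lh t + 8)) * ε := by
        rw [sum_mul]; exact sum_congr rfl fun t _ => by ring
      rw [e1]
      have h5 : (K0 * (∑ t, (2 * Lh t + 8)) + 1) * ε ≤ M * ε :=
        mul_le_mul_of_nonneg_right (by rw [hM]; linarith) hεp.le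
      linarith
    intro a ha ha1
    obtain ⟨b, hb, hb2⟩ := h1 a ha ha1
    exact ⟨b, hb, hb2.trans (mul_le_mul_of_nonneg_right h2 hd0.le)⟩
  -- central functions
  have hsz : (d : ℝ) - D0 O ≤ (4 * (M * ε)) * d :=
    hO3.trans (mul_le_mul_of_nonneg_right (by nlinarith) hd0.le)
  have hf : ∀ φ, Adm 20 φ → en (fun s => (U s).1) (fc O φ) ≤ eC * d := by
    intro φ hφ
    have h1 : ∀ s, hs ((U s).1 * fc O φ - fc O φ * (U s).1) ≤ eC / (k + 1) * d := by
      intro s
      obtain ⟨p, hp⟩ := near_of_nearInv hAVG hPROJ (hun (U s)) (hN1 s)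
      exact hMONO d O (U s).1 p φ hd (hp.mono hεM)
        (hsz.trans (mul_le_mul_of_nonneg_right hεM hd0.le)) hφ
    rw [en]
    refine (sum_le_sum fun s _ => h1 s).trans ?_
    rw [sum_const, card_univ, Fintype.card_fin, nsmul_eq_mul]
    have h2 : (k : ℝ) * (eC / (k + 1) * d) = (k : ℝ) / (k + 1) * (eC * d) := by
      field_simp
    rw [h2]
    have h3 : (k : ℝ) / (k + 1) ≤ 1 := by
      rw [div_le_one (by positivity)]; linarith
    calc (k : ℝ) / (k + 1) * (eC * d) ≤ 1 * (eC * d) :=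
          mul_le_mul_of_nonneg_right h3 (by positivity)
      _ = _ := one_mul _
  obtain ⟨m0, hm0, hm1⟩ := hCONC d k (fun s => (U s).1) O hd
    hIrr hf (hsz.trans (mul_le_mul_of_nonneg_right hεC hd0.le))
  -- the two unitaries
  have ha : ∀ j, ∃ a ∈ O.alg, Le (aᴴ * a) 1 ∧ hs ((W j).1 - a) ≤ eF * d := by
    intro j
    obtain ⟨a, ha, ha1, ha2⟩ := hO2 (W j).1 (by rw [hun (W j)]; show (1 - 1 : Mt d).PosSemidef; rw [sub_self]; exact Matrix.PosSemidef.zero)
    refine ⟨a, ha, ha1, ha2.trans ?_⟩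
    have h1 : en (fun s => (UK s).1) (W j).1 ≤ l * (ε * d) := by
      rw [en]
      refine (sum_le_sum fun s _ => hr3 j s).trans ?_
      rw [sum_const, card_univ, Fintype.card_fin, nsmul_eq_mul]
    have h2 := mul_le_mul_of_nonneg_left h1 hK0.le
    have h3 : (K0 * l + 1) * ε ≤ M * ε := mul_le_mul_of_nonneg_right (by rw [hM]; linarith) hεp.le
    have h4 : (K0 * l + 1) * ε ≤ eF := by nlinarith
    have h5 := mul_le_mul_of_nonneg_right h4 hd0.le
    nlinarith
  choose a ha1 ha2 ha3 using ha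
  have hc : ∀ j, ∑ i, hs ((W j).1 * (H.1 * pr O i * (H.1)ᴴ) - H.1 * pr O i * (H.1)ᴴ * (W j).1) ≤
      eF * d := by
    intro j
    have h1 := hAVG d O ((LinearMap.mulLeft ℂ (W j).1 - LinearMap.mulRight ℂ (W j).1).comp
      (cjL H.1)) (eF * d) (by
        intro x hx hx1
        show hs ((W j).1 * (H.1 * x * (H.1)ᴴ) - H.1 * x * (H.1)ᴴ * (W j).1) ≤ eF * d
        set Y : Mt d := (FreeGroup.lift UK (vl j)).1 with hY
        set X : Mt d := (H.1)ᴴ * (W j).1 * H.1 with hX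
        have hH2 : H.1 * (H.1)ᴴ = 1 := unit_symm (hun H)
        have e1 : (W j).1 * (H.1 * x * (H.1)ᴴ) - H.1 * x * (H.1)ᴴ * (W j).1 =
            H.1 * (X * x - x * X) * (H.1)ᴴ := by
          rw [Matrix.mul_sub, Matrix.sub_mul, hX]
          congr 1
          · calc (W j).1 * (H.1 * x * (H.1)ᴴ) = (H.1 * (H.1)ᴴ) * ((W j).1 * (H.1 * x * (H.1)ᴴ)) := by
                  rw [hH2, Matrix.one_mul]
              _ = _ := by simp only [Matrix.mul_assoc]
          · calc H.1 * x * (H.1)ᴴ * (W j).1 = H.1 * x * (H.1)ᴴ * (W j).1 * (H.1 * (H.1)ᴴ) := by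
                  rw [hH2, Matrix.mul_one]
              _ = _ := by simp only [Matrix.mul_assoc]
        rw [e1, hs_mul_unit (unit_conj (hun H)), hs_unit_mul (hun H)]
        have e2 : X * x - x * X = (Y * x - x * Y) + ((X - Y) * x - x * (X - Y)) := by
          rw [Matrix.sub_mul, Matrix.mul_sub]; abel
        have e3 : hs (X - Y) ≤ ε * d := by
          have e4 : X - Y = (H.1)ᴴ * ((W j).1 * H.1 - H.1 * Y) := by
            rw [Matrix.mul_sub, ← Matrix.mul_assoc, ← Matrix.mul_assoc, hun H, Matrix.one_mul]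
          rw [e4, hs_unit_mul (unit_conj (hun H))]
          exact hr4 j
        have h2 := hLl j d UK x
        have h3 := hO1 x hx hx1
        have h4 := mul_le_mul_of_nonneg_left h3 (hLl0 j)
        have h5 := hs_comm_le (y := X - Y) hx1
        have h6 := Pool.Agent.W683.RC.hs_add_le (Y * x - x * Y) ((X - Y) * x - x * (X - Y))
        rw [← e2] at h6
        have h7 : (2 * Ll j + 8) * ε ≤ M * ε := by
          refine mul_le_mul_of_nonneg_right ?_ hεp.le
          have h8 : 2 * Ll j + 8 ≤ ∑ j, (2 * Ll j + 8) :=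
            single_le_sum (f := fun j => 2 * Ll j + 8) (fun i _ => by linarith [hLl0 i])
              (mem_univ j)
          rw [hM]; linarith
        have h9 : (2 * Ll j + 8) * ε ≤ eF := by nlinarith
        have h10 := mul_le_mul_of_nonneg_right h9 hd0.le
        nlinarith)
    exact h1
  obtain ⟨p, hp⟩ := near_of_nearInv hAVG hPROJ (hun H) hN2
  have h := hFIN d O H.1 p (fun j => (W j).1) a m0 eF hd hm0 heFp.le (hp.mono hεF)
    (fun j => hun (W j)) (hsz.trans (mul_le_mul_of_nonneg_right hεF hd0.le)) ha1 ha2 ha3 hc hm1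
  refine h.trans ?_
  have h2 : Cf * eF = 1 / 4 := by rw [heF]; field_simp
  rw [h2]

theorem main : Pool.Agent.N652.OM.S_CORE2 := CORE2 AVG PROJ (MONO TR) (FIN MIN)

end

end Pool.Agent.N478.OM
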